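import Pool.Agent.MQG.StmtsU

/-!
# Squad MQG, DSL: legs of direct sums
-/

set_option autoImplicit false

namespace Pool.Agent.MQG.H38

/-- DSL -/
theorem dsl : DslStmt := by
  intro P ι κ U T h
  refine ⟨?_, ?_, ?_⟩
  · intro p ζ
    ext c
    have h1 : prt (es κ) p (fib e12 ζ c.2.2) = fib e12 (prt (es κ) p ζ) c.2.2 := by
      ext x
      rfl
    have h2 := congrArg (fun f : L2 (κ p × ι) => f (c.1, c.2.1)) (h p (fib e12 ζ c.2.2))
    rw [h1] at h2
    exact h2
  · intro p ζ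
    ext c
    have h1 : prt (es κ) p (fib e13 ζ c.2.1) = fib e13 (prt (es κ) p ζ) c.2.1 := by
      ext x
      rfl
    have h2 := congrArg (fun f : L2 (κ p × ι) => f (c.1, c.2.2)) (h p (fib e13 ζ c.2.1))
    rw [h1] at h2
    exact h2
  · intro W p ζ
    ext c
    have h1 : fib e23 ζ (⟨p, c.1⟩ : Σ p, κ p) = fib e23 (prt (es κ) p ζ) c.1 := by
      ext x
      rfl
    have h2 := congrArg (fun f : L2 (ι × ι) => W f c.2) h1
    exact h2

end Pool.Agent.MQG.H38
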