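import Pool.Agent.MQG.StmtsC

/-!
# Squad MQG, SHM: multiplicativity of the scaling group
-/

set_option autoImplicit false

namespace Pool.Agent.MQG.H38

open scoped InnerProductSpace InnerProduct Topology ComplexConjugate
open Complex Filter MeasureTheory

variable {α : Type} {V : ℝ → Op α}

theorem gk_conj (n : ℕ) (t : ℝ) : (starRingEnd ℂ) (gk n 0 t) = gk n 0 t := by
  have h1 : gk n 0 t = ((√(((n : ℝ) + 1) / Real.pi) *
      Real.exp (-((n : ℝ) + 1) * t ^ 2) : ℝ) : ℂ) := by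
    unfold gk
    push_cast
    rw [sub_zero]
  rw [h1, conj_ofReal]

theorem gk_neg (n : ℕ) (t : ℝ) : gk n 0 (-t) = gk n 0 t := by
  unfold gk
  push_cast
  rw [sub_zero, sub_zero, neg_sq]

/-- the Gaussian mean at `0` is symmetric -/
theorem gauss_symm (hV : IsGroup V) (n : ℕ) (ξ η : L2 α) :
    ⟪hV.gauss n 0 ξ, η⟫_ℂ = ⟪ξ, hV.gauss n 0 η⟫_ℂ := by
  have h1 := hV.apply_gauss (innerSL ℂ ξ) n 0 η
  have h2 := hV.apply_gauss (innerSL ℂ η) n 0 ξ
  rw [innerSL_apply_apply] at h1 h2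
  rw [h1, ← inner_conj_symm, h2, ← integral_conj]
  have h3 : (fun t : ℝ => (starRingEnd ℂ) (gk n 0 t • (innerSL ℂ η) (V t ξ))) =
      fun t : ℝ => (fun t : ℝ => gk n 0 t • (innerSL ℂ ξ) (V t η)) (-t) := by
    funext t
    change (starRingEnd ℂ) (gk n 0 t * ⟪η, V t ξ⟫_ℂ) = gk n 0 (-t) * ⟪ξ, V (-t) η⟫_ℂ
    rw [map_mul, gk_conj, gk_neg, inner_conj_symm, hV.inner_left]
  rw [h3]
  exact integral_neg_eq_self (fun t : ℝ => gk n 0 t • (innerSL ℂ ξ) (V t η)) volume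

/-- the adjoint of a Gaussian mean -/
theorem gauss_adj (hV : IsGroup V) (n : ℕ) (w : ℂ) (ξ η : L2 α) :
    ⟪hV.gauss n w ξ, η⟫_ℂ = ⟪ξ, hV.gauss n (-(conj w)) η⟫_ℂ := by
  have h : (fun v : ℂ => ⟪hV.gauss n (conj v) ξ, η⟫_ℂ) = fun v => ⟪ξ, hV.gauss n (-v) η⟫_ℂ := by
    refine entire_ext ?_ ?_ fun t => ?_
    · exact inner_differentiable (hV.differentiable_gauss n ξ) (differentiable_const η)
    · have h1 : Differentiable ℂ fun v : ℂ => hV.gauss n (-v) η :=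
        (hV.differentiable_gauss n η).comp differentiable_id.neg
      exact fun v => ((innerSL ℂ ξ).differentiableAt.comp v (h1 v))
    · have h1 := hV.gauss_real n t 0 ξ
      have h2 := hV.gauss_real n (-t) 0 η
      rw [zero_add] at h1 h2
      rw [conj_ofReal, h1, hV.inner_left, gauss_symm, ← Complex.ofReal_neg, h2, hV.gauss_V]
  have h2 := congrFun h (conj w)
  change ⟪hV.gauss n (conj (conj w)) ξ, η⟫_ℂ = ⟪ξ, hV.gauss n (-(conj w)) η⟫_ℂ at h2
  rw [conj_conj] at h2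
  exact h2

/-- SHM -/
theorem shm : ShmStmt := by
  intro ι V hV s a b a' b' hab hab' f g hf hg
  have hc : -(conj (-(I * (s : ℂ)))) = -(I * s) := by
    rw [map_neg, map_mul, conj_I, conj_ofReal]
    ring
  have key : ∀ n, hV.gauss n (-(I * s)) (b' (g 0)) = hV.gauss n 0 (a' (g (-(I * s)))) := by
    intro n
    refine ext_inner_left ℂ fun v => ?_
    have h1 := gauss_adj hV n (-(I * s)) v (b' (g 0))
    rw [hc] at h1
    have hF : Traj V fun w => hV.gauss n (w + -(I * s)) v := (hV.traj_gauss n v).shift hV _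
    have h2 := hab' _ g hF hg
    simp only [zero_add, add_neg_cancel] at h2
    rw [← h1, h2, gauss_symm]
  have h1 : ∀ n, ⟪f 0, b (hV.gauss n 0 (b' (g 0)))⟫_ℂ =
      ⟪f (I * s), a (hV.gauss n 0 (a' (g (-(I * s)))))⟫_ℂ := by
    intro n
    have h2 := hab f _ hf (hV.traj_gauss n (b' (g 0)))
    rw [key] at h2
    exact h2
  have t1 : Tendsto (fun n => ⟪f 0, b (hV.gauss n 0 (b' (g 0)))⟫_ℂ) atTop
      (𝓝 ⟪f 0, b (b' (g 0))⟫_ℂ) :=
    tendsto_const_nhds.inner ((b.continuous.tendsto _).comp (hV.tendsto_gauss _))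
  have t2 : Tendsto (fun n => ⟪f (I * s), a (hV.gauss n 0 (a' (g (-(I * s)))))⟫_ℂ) atTop
      (𝓝 ⟪f (I * s), a (a' (g (-(I * s))))⟫_ℂ) :=
    tendsto_const_nhds.inner ((a.continuous.tendsto _).comp (hV.tendsto_gauss _))
  simp only [h1] at t1
  exact tendsto_nhds_unique t1 t2

end Pool.Agent.MQG.H38
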